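import Pool.Agent.Q179.CR.Final
import Pool.Agent.Q179.CR.Chain
import Pool.Agent.Q179.CR.Step
import Pool.Agent.Q179.CR.Main
import Pool.Agent.Q179.CR.HullMany
import Pool.Agent.Q179.CR.Conv
import Pool.Agent.Q179.CR.TypeEnum
import Pool.Agent.Q179.CR.Union
import Pool.Agent.Q179.CR.Flat
import Pool.Agent.Q179.CR.Enum
import Pool.Agent.Q179.CR.Leaf
import Pool.Agent.Q179.CR.CopyT
import Pool.Agent.Q95.CR.Rot
import Pool.Agent.Q203.CR.Split
import Pool.Agent.Q203.CR.Trans
import Pool.Agent.Q203.CR.Exch
import Pool.Agent.Q203.CR.Fin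

/-!
# MP_b43b3b_co, Q1: reversal sequences of 3-cycles suffice in every tournament

In a tournament of arbitrary size the effect of an arbitrary reversal sequence of directed cycles is
the effect of a reversal sequence which consists of directed 3-cycles.
-/

set_option autoImplicit false

namespace Pool.Agent.Results.MP_b43b3b_co.ThreeCycles

universe u w

variable {V : Type u}

/-- A tournament on the vertex set `V`, given by its arc relation: there are no loops and for
distinct vertices `u`, `v` exactly one of `u v`, `v u` is an arc. -/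
def IsTournament (D : V → V → Prop) : Prop :=
  (∀ v, ¬ D v v) ∧ ∀ u v, u ≠ v → (D u v ↔ ¬ D v u)

/-- The arcs `(v₁, v₂), (v₂, v₃), ..., (vₙ, v₁)` of the cyclic sequence `v₁, ..., vₙ` of
vertices. -/
def arcs (C : List V) : List (V × V) := C.zip (C.rotate 1)

/-- `C` is a (finite) directed cycle of the digraph `D`: its vertices are distinct, there are at
least three of them, and its arcs are arcs of `D`. -/
def IsDirectedCycle (D : V → V → Prop) (C : List V) : Prop :=
  C.Nodup ∧ 3 ≤ C.length ∧ ∀ p ∈ arcs C, D p.1 p.2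

/-- The digraph `D^C` which is obtained from `D` by replacing each arc `u v` of `C` with `v u`. -/
def reversal (D : V → V → Prop) (C : List V) : V → V → Prop :=
  fun x y => (y, x) ∈ arcs C ∨ (D x y ∧ (x, y) ∉ arcs C)

/-- `(c β), β < α`, is a reversal sequence of `D` of length `α`, and `E β`, `β ≤ α`, is the result
of its initial segment of length `β`.  One starts with `D`, in the step `β` the directed cycle `c β`
of `E β` is reversed, at a limit ordinal `β` the initial segment has to be locally finite (each pair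
`x, y` of vertices is in only finitely many of its cycles) and `E β` is the limit of the digraphs
`E ξ`, `ξ < β` (each pair of vertices has in `E β` its eventual orientation). -/
structure IsReversalSequence (D : V → V → Prop) (α : Ordinal.{w}) (c : Ordinal.{w} → List V)
    (E : Ordinal.{w} → V → V → Prop) : Prop where
  zero : E 0 = D
  cycle : ∀ β < α, IsDirectedCycle (E β) (c β)
  succ : ∀ β < α, E (β + 1) = reversal (E β) (c β)
  finite : ∀ β ≤ α, Order.IsSuccLimit β → ∀ x y,
    {γ | γ < β ∧ ((x, y) ∈ arcs (c γ) ∨ (y, x) ∈ arcs (c γ))}.Finite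
  limit : ∀ β ≤ α, Order.IsSuccLimit β → ∀ x y,
    ∃ ν < β, ∀ ξ, ν ≤ ξ → ξ < β → (E β x y ↔ E ξ x y)

open Pool.Agent.Q179.CR in
theorem main : S_MAIN.{u} := by
  have h1 : S_COPY.{u} := @t_COPY.{u} @Pool.Agent.Q203.CR.t_TRANS.{u}
    @Pool.Agent.Q203.CR.t_UNDO.{u} @Pool.Agent.Q203.CR.t_EXCH.{u}
  have h2 : S_FIN.{u} := @Pool.Agent.Q203.CR.t_FIN.{u} @h1
  have h3 : S_LEAF.{u} := @t_LEAF.{u} @h2 @t_CONV.{u}
  have h4 : S_STEP.{u} := @t_STEP.{u} @t_HULL.{u} @t_MANY.{u}
  have h5 : S_CHAIN.{u} := @t_CHAIN.{u} @t_TYPE.{u} @t_ENUMSET.{u} @h4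
  exact @t_MAIN.{u} @h3 @h5 @t_UNION.{u}

/-- Let `D` be a tournament of arbitrary size and let `c` be an arbitrary reversal sequence of `D`,
with result `E α`.  Then there is a reversal sequence `c'` of `D` which consists of directed cycles
of length 3 and has the same result. -/
theorem result (D : V → V → Prop) (hD : IsTournament D) (α : Ordinal.{w})
    (c : Ordinal.{w} → List V) (E : Ordinal.{w} → V → V → Prop)
    (h : IsReversalSequence D α c E) :
    ∃ (α' : Ordinal.{u}) (c' : Ordinal.{u} → List V) (E' : Ordinal.{u} → V → V → Prop),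
      IsReversalSequence D α' c' E' ∧ (∀ β < α', (c' β).length = 3) ∧ E' α' = E α := by
  have h' : Pool.Agent.Q179.CR.IsReversalSequence D α c E :=
    ⟨h.zero, h.cycle, h.succ, h.finite, h.limit⟩
  obtain ⟨α', c', E', h1, h2, h3⟩ := Pool.Agent.Q179.CR.final main hD h'
  exact ⟨α', c', E', ⟨h1.zero, h1.cycle, h1.succ, h1.finite, h1.limit⟩, h2, h3⟩

end Pool.Agent.Results.MP_b43b3b_co.ThreeCycles
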